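import Pool.Agent.Q38.GE.Stm

/-! Project GE (MP_54c2ef_al), job GEO: the inverse of `1 - Σ c_u u`. -/

set_option autoImplicit false

namespace Q76.GE

open Q38.GE

/-- the inverse, by recursion on the length -/
noncomputable def gs {R : Type} [Ring R] {n : ℕ} (c : Wd n → R) (w : Wd n) : R :=
  if w = [] then 1 else ∑ k : Fin w.length, c (w.drop k) * gs c (w.take k)
termination_by w.length
decreasing_by
  rw [List.length_take]
  have := k.2
  omega

theorem gs_nil {R : Type} [Ring R] {n : ℕ} (c : Wd n → R) : gs c [] = 1 := by
  rw [gs, if_pos rfl]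

theorem gs_rec {R : Type} [Ring R] {n : ℕ} (c : Wd n → R) {w : Wd n} (hw : w ≠ []) :
    gs c w = ∑ k ∈ Finset.range w.length, c (w.drop k) * gs c (w.take k) := by
  rw [gs, if_neg hw, Finset.sum_range]

theorem gs_rec2 {R : Type} [Ring R] {n : ℕ} (c : Wd n → R) : ∀ (N : ℕ) (w : Wd n),
    w.length = N → w ≠ [] →
    gs c w = ∑ k ∈ Finset.range w.length, gs c (w.drop (k + 1)) * c (w.take (k + 1)) := by
  intro N
  induction N using Nat.strong_induction_on with
  | _ N ih =>
    intro w hN hw
    obtain ⟨M, hM⟩ : ∃ M, N = M + 1 := by
      cases N with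
      | zero => exact absurd (List.length_eq_zero_iff.1 hN) hw
      | succ M => exact ⟨M, rfl⟩
    have hlen : w.length = M + 1 := hN.trans hM
    rw [gs_rec c hw, hlen, Finset.sum_range_succ', Finset.sum_range_succ]
    have hlast : gs c (w.drop (M + 1)) * c (w.take (M + 1)) = c w := by
      rw [← hlen, List.drop_length, List.take_length, gs_nil, one_mul]
    have hfirst : c (w.drop 0) * gs c (w.take 0) = c w := by
      rw [List.drop_zero, List.take_zero, gs_nil, mul_one]
    rw [hlast, hfirst]
    congr 1
    have hL : ∀ m ∈ Finset.range M, c (w.drop (m + 1)) * gs c (w.take (m + 1)) =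
        ∑ k ∈ Finset.range (m + 1),
          c (w.drop (m + 1)) * (gs c ((w.take (m + 1)).drop (k + 1)) * c (w.take (k + 1))) := by
      intro m hm
      rw [Finset.mem_range] at hm
      have hl : (w.take (m + 1)).length = m + 1 := by
        rw [List.length_take, hlen]
        omega
      have hne : w.take (m + 1) ≠ [] := by
        intro h
        rw [h] at hl
        simp at hl
      rw [ih (m + 1) (by omega) _ hl hne, hl, Finset.mul_sum]
      refine Finset.sum_congr rfl fun k hk => ?_
      rw [Finset.mem_range] at hk
      rw [List.take_take, min_eq_left (by omega)]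
    have hR : ∀ k ∈ Finset.range M, gs c (w.drop (k + 1)) * c (w.take (k + 1)) =
        ∑ m ∈ Finset.Ico k M,
          c (w.drop (m + 1)) * (gs c ((w.take (m + 1)).drop (k + 1)) * c (w.take (k + 1))) := by
      intro k hk
      rw [Finset.mem_range] at hk
      have hl : (w.drop (k + 1)).length = M - k := by
        rw [List.length_drop, hlen]
        omega
      have hne : w.drop (k + 1) ≠ [] := by
        intro h
        rw [h] at hl
        simp at hl
        omega
      rw [gs_rec c hne, hl, Finset.sum_mul, Finset.sum_Ico_eq_sum_range]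
      refine Finset.sum_congr rfl fun l hl => ?_
      rw [List.drop_drop, List.drop_take, mul_assoc]
      have e1 : k + 1 + l = k + l + 1 := by omega
      have e2 : k + l + 1 - (k + 1) = l := by omega
      rw [e1, e2]
    rw [Finset.sum_congr rfl hL, Finset.sum_congr rfl hR]
    refine Finset.sum_comm' fun m k => ?_
    simp only [Finset.mem_range, Finset.mem_Ico]
    omega

theorem geo : S_GEO := fun R _ n c =>
  ⟨gs c, gs_nil c, fun _ hw => gs_rec c hw, fun w hw => gs_rec2 c w.length w rfl hw⟩

end Q76.GE
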